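import Pool.Agent.L7h78.UC.Ew

/-!
# Project UC: part LOW
-/

set_option autoImplicit false

namespace Pool.Agent.L7h78.UC

open Finset Filter Topology
open Pool.Agent.L7h38.UC

/-- the start: urn `i` contains the `n` balls of colour `i` -/
def idc (d n : ℕ) : Cf d n := fun i _ => i

theorem cn_idc (d n : ℕ) : cn (idc d n) = fun i j => if i = j then (n : ℤ) else 0 := by
  funext i j
  unfold cn idc
  by_cases h : i = j
  · simp [h]
  · simp [h]

theorem bal_idc (d n : ℕ) : Bal (idc d n) := by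
  intro j
  simp only [cn_idc]
  simp

theorem low_num (δ η K a : ℝ) (hδ : 0 < δ) (hη : 0 < η) (ha : 0 ≤ a) :
    ∀ᶠ n : ℕ in atTop, 1 ≤ n ∧ 4 ≤ (n : ℝ) ^ δ ∧ 0 ≤ Real.log n ∧
      a * (|K| * Real.log n) ≤ η * (n : ℝ) ^ (2 * δ) := by
  have h1 : ∀ᶠ x : ℝ in atTop, 4 ≤ x ^ δ := (tendsto_rpow_atTop hδ).eventually_ge_atTop 4
  have h2 : ∀ᶠ x : ℝ in atTop, ‖Real.log x‖ ≤ (η / (a * |K| + 1)) * ‖x ^ (2 * δ)‖ :=
    (isLittleO_log_rpow_atTop (by positivity : (0 : ℝ) < 2 * δ)).def (by positivity)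
  filter_upwards [tendsto_natCast_atTop_atTop.eventually h1,
    tendsto_natCast_atTop_atTop.eventually h2, eventually_ge_atTop 1] with n h3 h4 h5
  have h6 : (1 : ℝ) ≤ n := by exact_mod_cast h5
  have h7 : 0 ≤ Real.log n := Real.log_nonneg h6
  refine ⟨h5, h3, h7, ?_⟩
  rw [Real.norm_of_nonneg h7, Real.norm_of_nonneg (by positivity)] at h4
  calc a * (|K| * Real.log n) ≤ (a * |K| + 1) * Real.log n := by nlinarith [abs_nonneg K]
    _ ≤ (a * |K| + 1) * ((η / (a * |K| + 1)) * (n : ℝ) ^ (2 * δ)) :=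
        mul_le_mul_of_nonneg_left h4 (by positivity)
    _ = η * (n : ℝ) ^ (2 * δ) := by field_simp

theorem s_LOW (hMOM : S_MOM) (hPWB : S_PWB) (hFWB : S_FWB) : S_LOW := by
  classical
  intro d μ hd hμ δ hδ η hη K
  filter_upwards [low_num δ η K (16 * (d : ℝ) ^ 2) hδ hη (by positivity)] with n hn k hk N hN hE
  obtain ⟨hn1, hn4, hlog, hnum⟩ := hn
  have hn0 : (0 : ℝ) < n := by exact_mod_cast hn1
  have hl0 : (0 : ℝ) ≤ (k : ℝ) / n := by positivity
  have hl1 : (k : ℝ) / n ≤ 1 := by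
    rw [div_le_one hn0]
    exact_mod_cast hk
  obtain ⟨-, -, -, hF4, -⟩ := hFWB d (by omega)
  set F : Mt d → ℝ := fun A =>
    if nf2 (fun i j => rl A i j - n / d) ≤ (n : ℝ) ^ (1 + δ) then 1 else 0 with hFdef
  have hF1 : ∀ A, F A ≤ 1 := by
    intro A
    simp only [hFdef]
    split_ifs <;> norm_num
  have hF0 : ∀ A, 0 ≤ F A := by
    intro A
    simp only [hFdef]
    split_ifs <;> norm_num
  have hNK : (N : ℝ) ≤ |K| * Real.log n :=
    hN.trans (mul_le_mul_of_nonneg_right (le_abs_self K) hlog)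
  have hstart : (fun i j => if i = j then (n : ℤ) else 0 : Mt d) = cn (idc d n) :=
    (cn_idc d n).symm
  have hpow : (n : ℝ) ^ (1 + 2 * δ) = n * ((n : ℝ) ^ δ * (n : ℝ) ^ δ) := by
    rw [Real.rpow_add hn0, Real.rpow_one, two_mul, Real.rpow_add hn0]
  have hpow1 : (n : ℝ) ^ (1 + δ) = n * (n : ℝ) ^ δ := by
    rw [Real.rpow_add hn0, Real.rpow_one]
  have hpow2 : (n : ℝ) ^ (2 * δ) = (n : ℝ) ^ δ * (n : ℝ) ^ δ := by
    rw [two_mul, Real.rpow_add hn0]
  have hP : ∀ w : List (Equiv.Perm (Fin d)), w.length = N →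
      PW n k w F (cn (idc d n)) ≤
        1 * (if fw ((k : ℝ) / n) w < (n : ℝ) ^ (-(1 / 2 : ℝ) + δ) then 1 else 0) + η * 1 := by
    intro w hw
    split_ifs with hlt
    · have h1 := PW_le hPWB hk w F (fun _ => 1) 1 (fun c _ => by
        have := hF1 (cn c)
        linarith) (idc d n) (bal_idc d n)
      rw [hPWB.2.2.1 d n k hk w 1 (idc d n)] at h1
      linarith
    · push Not at hlt
      -- the centre
      set z : Fin d → Fin d → ℝ := mw ((k : ℝ) / n) w (rl (cn (idc d n))) with hz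
      have h1 := hMOM d n k hn1 hk w (idc d n) z
      have h2 : nf2 (fun i j => mw ((k : ℝ) / n) w (rl (cn (idc d n))) i j - z i j) = 0 := by
        rw [← nf2_zero (d := d)]
        congr 1
        funext i j
        rw [hz]
        exact sub_self _
      rw [h2, zero_add] at h1
      have h3 : (n : ℝ) ^ (1 + 2 * δ) ≤ nf2 (fun i j => z i j - n / d) := by
        have h4 := hF4 ((k : ℝ) / n) n w
        have h5 : (fun i j => if i = j then (n : ℝ) else 0 : Fin d → Fin d → ℝ) =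
            rl (cn (idc d n)) := by
          funext i j
          simp only [rl, cn_idc]
          split_ifs <;> simp
        rw [h5] at h4
        rw [hz, h4]
        have h6 : ((n : ℝ) ^ (-(1 / 2 : ℝ) + δ)) ^ 2 ≤ fw ((k : ℝ) / n) w ^ 2 :=
          pow_le_pow_left₀ (by positivity) hlt 2
        have h7 : (n : ℝ) ^ (1 + 2 * δ) = (n : ℝ) ^ 2 * ((n : ℝ) ^ (-(1 / 2 : ℝ) + δ)) ^ 2 := by
          rw [← Real.rpow_natCast, ← Real.rpow_natCast, ← Real.rpow_mul hn0.le,
            ← Real.rpow_add hn0]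
          congr 1
          push_cast
          ring
        rw [h7]
        exact mul_le_mul_of_nonneg_left h6 (by positivity)
      have h8 : ∀ c : Cf d n, Bal c →
          F (cn c) ≤ (4 / (n : ℝ) ^ (1 + 2 * δ)) * nf2 (fun i j => rl (cn c) i j - z i j) := by
        intro c _
        simp only [hFdef]
        have hpos : (0 : ℝ) < (n : ℝ) ^ (1 + 2 * δ) := by positivity
        split_ifs with h9
        · have h10 := nf2_tri (rl (cn c)) z (fun _ _ => (n : ℝ) / d)
          have h11 : (n : ℝ) ^ (1 + 2 * δ) / 4 ≤ nf2 (fun i j => rl (cn c) i j - z i j) := by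
            have h12 : (n : ℝ) ^ (1 + δ) ≤ (n : ℝ) ^ (1 + 2 * δ) / 4 := by
              rw [hpow, hpow1]
              have h13 : (0 : ℝ) < (n : ℝ) ^ δ := by positivity
              nlinarith [mul_pos hn0 h13]
            linarith
          rw [div_mul_eq_mul_div, le_div_iff₀ hpos]
          linarith
        · exact mul_nonneg (by positivity) (nf2_nonneg _)
      have h9 := PW_le hPWB hk w F (fun B => nf2 (fun i j => rl B i j - z i j)) _ h8 (idc d n)
        (bal_idc d n)
      have h10 : 4 / (n : ℝ) ^ (1 + 2 * δ) * (4 * (d : ℝ) ^ 2 * n * w.length) ≤ η := by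
        have hpos : (0 : ℝ) < (n : ℝ) ^ (1 + 2 * δ) := by positivity
        rw [div_mul_eq_mul_div, div_le_iff₀ hpos, hw, hpow]
        rw [hpow2] at hnum
        have h11 : 16 * (d : ℝ) ^ 2 * N ≤ η * ((n : ℝ) ^ δ * (n : ℝ) ^ δ) :=
          (mul_le_mul_of_nonneg_left hNK (by positivity)).trans hnum
        nlinarith
      calc PW n k w F (cn (idc d n)) ≤ _ := h9
        _ ≤ 4 / (n : ℝ) ^ (1 + 2 * δ) * (4 * (d : ℝ) ^ 2 * n * w.length) :=
            mul_le_mul_of_nonneg_left h1 (by positivity)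
        _ ≤ η := h10
        _ ≤ 1 * 0 + η * 1 := by linarith
  change EW μ N (fun w => PW n k w F (fun i j => if i = j then (n : ℤ) else 0)) ≤ 2 * η
  rw [hstart]
  refine (EW_mono hμ.1 N _ _ hP).trans ?_
  rw [EW_lin 1 η N _ (fun _ => 1), EW_const hμ.2]
  linarith

end Pool.Agent.L7h78.UC
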