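import Pool.Agent.L7h78.UC.Ew

/-!
# Project UC: part TYP
-/

set_option autoImplicit false

namespace Pool.Agent.L7h78.UC

open Finset Filter Topology
open Pool.Agent.L7h38.UC

theorem typ_num (δ η a b : ℝ) (hδ : 0 < δ) (hη : 0 < η) (_ : 0 ≤ a) (hb : 0 ≤ b) :
    ∀ᶠ n : ℕ in atTop, 1 ≤ n ∧ 0 ≤ Real.log n ∧ a + b * Real.log n ≤ η * (n : ℝ) ^ δ := by
  have h1 : ∀ᶠ x : ℝ in atTop, 2 * a / η ≤ x ^ δ :=
    (tendsto_rpow_atTop hδ).eventually_ge_atTop _
  have h2 : ∀ᶠ x : ℝ in atTop, ‖Real.log x‖ ≤ (η / (2 * (b + 1))) * ‖x ^ δ‖ :=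
    (isLittleO_log_rpow_atTop hδ).def (by positivity)
  filter_upwards [tendsto_natCast_atTop_atTop.eventually h1,
    tendsto_natCast_atTop_atTop.eventually h2, eventually_ge_atTop 1] with n h3 h4 h5
  have h6 : (1 : ℝ) ≤ n := by exact_mod_cast h5
  have h7 : 0 ≤ Real.log n := Real.log_nonneg h6
  refine ⟨h5, h7, ?_⟩
  rw [Real.norm_of_nonneg h7, Real.norm_of_nonneg (by positivity)] at h4
  have h8 : a ≤ η / 2 * (n : ℝ) ^ δ := by
    rw [div_le_iff₀ hη] at h3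
    linarith
  have h9 : b * Real.log n ≤ η / 2 * (n : ℝ) ^ δ := by
    calc b * Real.log n ≤ (b + 1) * Real.log n := by nlinarith
      _ ≤ (b + 1) * ((η / (2 * (b + 1))) * (n : ℝ) ^ δ) :=
          mul_le_mul_of_nonneg_left h4 (by positivity)
      _ = η / 2 * (n : ℝ) ^ δ := by field_simp
  linarith

theorem s_TYP (hMOM : S_MOM) (hPWB : S_PWB) (hFWB : S_FWB) (hSQF : S_SQF) : S_TYP := by
  classical
  intro d μ hd hμ hirr c0 hc0 δ hδ η hη
  obtain ⟨C, ρ, hC, hρ0, hρ1, hsq⟩ := hSQF d μ (by omega) hμ hirr c0 hc0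
  have hlr : Real.log ρ < 0 := Real.log_neg hρ0 hρ1
  have hlne : Real.log ρ ≠ 0 := hlr.ne
  set K : ℝ := 1 / (-Real.log ρ) with hK
  have hK0 : 0 < K := one_div_pos.2 (neg_pos.2 hlr)
  refine ⟨K, ?_⟩
  filter_upwards [typ_num δ η ((d : ℝ) ^ 2 * C + 4 * (d : ℝ) ^ 2) (4 * (d : ℝ) ^ 2 * K) hδ hη
    (by positivity) (by positivity)] with n hn k hk1 hk2 N hN c hc
  obtain ⟨hn1, hlog, hnum⟩ := hn
  have hn0 : (0 : ℝ) < n := by exact_mod_cast hn1
  have hkn : k ≤ n := by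
    have : (k : ℝ) ≤ n := hk2.trans (by nlinarith)
    exact_mod_cast this
  have hlc : c0 ≤ (k : ℝ) / n := by
    rw [le_div_iff₀ hn0]
    exact hk1
  have hlc' : (k : ℝ) / n ≤ 1 - c0 := by
    rw [div_le_iff₀ hn0]
    exact hk2
  have hl0 : (0 : ℝ) ≤ (k : ℝ) / n := hc0.le.trans hlc
  have hl1 : (k : ℝ) / n ≤ 1 := hlc'.trans (by linarith)
  obtain ⟨-, -, hF3, -, -⟩ := hFWB d (by omega)
  set F : Mt d → ℝ := fun A =>
    if nf2 (fun i j => rl A i j - n / d) ≤ (n : ℝ) ^ (1 + δ) then 1 else 0 with hFdef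
  set H : Mt d → ℝ := fun A => nf2 (fun i j => rl A i j - n / d) with hHdef
  set T : ℝ := (n : ℝ) ^ (1 + δ) with hT
  have hT0 : 0 < T := by positivity
  set b : List (Equiv.Perm (Fin d)) → ℝ := fun w =>
    1 - 1 / T * (fw ((k : ℝ) / n) w ^ 2 * (d * n) ^ 2 + 4 * (d : ℝ) ^ 2 * n * w.length) with hb
  -- one list
  have h1 : ∀ (w : List (Equiv.Perm (Fin d))) (c : Cf d n), Bal c → b w ≤ PW n k w F (cn c) := by
    intro w c hc
    have h2 := hPWB.1 d n k hkn w (fun B => 1 * (1 : ℝ) + (-(1 / T)) * H B) F (fun c' _ => by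
      have h3 : 0 ≤ H (cn c') := nf2_nonneg _
      simp only [hFdef]
      split_ifs with h4
      · have : 0 ≤ 1 / T * H (cn c') := by positivity
        linarith
      · push Not at h4
        have h5 : 1 ≤ 1 / T * H (cn c') := by
          rw [one_div_mul_eq_div, le_div_iff₀ hT0, one_mul]
          exact h4.le
        linarith) c hc
    rw [hPWB.2.1 d n k w (fun _ => 1) H 1 (-(1 / T)) (cn c),
      hPWB.2.2.1 d n k hkn w 1 c] at h2
    have h3 := hMOM d n k hn1 hkn w c (fun _ _ => (n : ℝ) / d)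
    have h4 := hF3 ((k : ℝ) / n) hl0 hl1 n w c hc
    have h5 : PW n k w H (cn c) ≤ fw ((k : ℝ) / n) w ^ 2 * (d * n) ^ 2 +
        4 * (d : ℝ) ^ 2 * n * w.length := h3.trans (add_le_add_left h4 _)
    have h6 : 1 / T * PW n k w H (cn c) ≤ 1 / T * (fw ((k : ℝ) / n) w ^ 2 * (d * n) ^ 2 +
        4 * (d : ℝ) ^ 2 * n * w.length) := mul_le_mul_of_nonneg_left h5 (by positivity)
    refine le_trans ?_ h2
    simp only [hb]
    linarith
  have h2 : ∀ (v w : List (Equiv.Perm (Fin d))), b w ≤ PW n k (v ++ w) F (cn c) := by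
    intro v w
    rw [hPWB.2.2.2.2 d n k v w F (cn c)]
    have h3 := hPWB.1 d n k hkn v (fun _ => b w) (PW n k w F) (fun c' hc' => h1 w c' hc') c hc
    rwa [hPWB.2.2.1 d n k hkn v (b w) c] at h3
  -- the number of rings
  set N0 : ℕ := ⌈K * Real.log n⌉₊ with hN0
  have hN0le : N0 ≤ N := Nat.ceil_le.2 hN
  obtain ⟨M, rfl⟩ : ∃ M, N = M + N0 := ⟨N - N0, by omega⟩
  have hEb : 1 - η ≤ EW μ N0 b := by
    have h3 : EW μ N0 b = 1 - 1 / T * ((d * n) ^ 2 * EW μ N0 (fun w => fw ((k : ℝ) / n) w ^ 2) +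
        4 * (d : ℝ) ^ 2 * n * N0) := by
      have h4 : EW μ N0 b = EW μ N0 (fun w => (1 - 1 / T * (4 * (d : ℝ) ^ 2 * n * N0)) * 1 +
          (-(1 / T * (d * n) ^ 2)) * fw ((k : ℝ) / n) w ^ 2) := by
        refine le_antisymm (EW_mono hμ.1 N0 _ _ fun w hw => ?_)
          (EW_mono hμ.1 N0 _ _ fun w hw => ?_)
        · simp only [hb]
          rw [hw]
          exact le_of_eq (by ring)
        · simp only [hb]
          rw [hw]
          exact le_of_eq (by ring)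
      rw [h4, EW_lin _ _ N0 (fun _ => 1), EW_const hμ.2]
      ring
    have h4 : ρ ^ N0 ≤ 1 / n := by
      have h5 : K * Real.log n ≤ N0 := Nat.le_ceil _
      rw [← Real.rpow_natCast, ← Real.exp_log hρ0, ← Real.exp_mul, one_div, ← Real.exp_log hn0,
        ← Real.exp_neg]
      rw [Real.exp_le_exp]
      have h6 : Real.log ρ * (N0 : ℝ) ≤ Real.log ρ * (K * Real.log n) :=
        mul_le_mul_of_nonpos_left h5 hlr.le
      have h7 : Real.log ρ * (K * Real.log n) = -Real.log n := by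
        rw [hK]
        field_simp
      linarith
    have h5 := hsq ((k : ℝ) / n) hlc hlc' N0
    have h6 : (N0 : ℝ) ≤ K * Real.log n + 1 := (Nat.ceil_lt_add_one (by positivity)).le
    have h7 : (d * n : ℝ) ^ 2 * EW μ N0 (fun w => fw ((k : ℝ) / n) w ^ 2) +
        4 * (d : ℝ) ^ 2 * n * N0 ≤ η * T := by
      have h8 : EW μ N0 (fun w => fw ((k : ℝ) / n) w ^ 2) ≤ C * (1 / n) :=
        h5.trans (mul_le_mul_of_nonneg_left h4 hC.le)
      have h9 : T = n * (n : ℝ) ^ δ := by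
        rw [hT, Real.rpow_add hn0, Real.rpow_one]
      calc (d * n : ℝ) ^ 2 * EW μ N0 (fun w => fw ((k : ℝ) / n) w ^ 2) + 4 * (d : ℝ) ^ 2 * n * N0
          ≤ (d * n : ℝ) ^ 2 * (C * (1 / n)) + 4 * (d : ℝ) ^ 2 * n * (K * Real.log n + 1) :=
            add_le_add (mul_le_mul_of_nonneg_left h8 (by positivity))
              (mul_le_mul_of_nonneg_left h6 (by positivity))
        _ = n * (((d : ℝ) ^ 2 * C + 4 * (d : ℝ) ^ 2) + 4 * (d : ℝ) ^ 2 * K * Real.log n) := by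
            field_simp
            ring
        _ ≤ n * (η * (n : ℝ) ^ δ) := mul_le_mul_of_nonneg_left hnum hn0.le
        _ = η * T := by
            rw [h9]
            ring
    rw [h3]
    have h8 : 1 / T * ((d * n : ℝ) ^ 2 * EW μ N0 (fun w => fw ((k : ℝ) / n) w ^ 2) +
        4 * (d : ℝ) ^ 2 * n * N0) ≤ η := by
      rw [one_div_mul_eq_div, div_le_iff₀ hT0]
      exact h7
    linarith
  change 1 - η ≤ EW μ (M + N0) (fun w => PW n k w F (cn c))
  rw [EW_append]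
  refine hEb.trans ?_
  rw [← EW_const hμ.2 (EW μ N0 b) M]
  exact EW_mono hμ.1 M _ _ fun v _ => EW_mono hμ.1 N0 _ _ fun w _ => h2 v w

end Pool.Agent.L7h78.UC
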