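import Pool.Agent.L7h38.UC.Stm

/-!
# Project UC: rules for `EW`, and the one-sided Chebyshev bounds for `PW`
-/

set_option autoImplicit false

namespace Pool.Agent.L7h78.UC

open Finset Filter Topology
open Pool.Agent.L7h38.UC

variable {d : ℕ} {μ : Equiv.Perm (Fin d) → ℝ}

theorem EW_mono (hμ : ∀ σ, 0 ≤ μ σ) : ∀ (N : ℕ) (g h : List (Equiv.Perm (Fin d)) → ℝ),
    (∀ w, w.length = N → g w ≤ h w) → EW μ N g ≤ EW μ N h
  | 0, g, h, H => H [] rfl
  | N + 1, g, h, H => Finset.sum_le_sum fun σ _ => mul_le_mul_of_nonneg_left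
      (EW_mono hμ N _ _ fun w hw => H (σ :: w) (by rw [List.length_cons, hw])) (hμ σ)

theorem EW_const (hμ : ∑ σ, μ σ = 1) (x : ℝ) : ∀ N : ℕ, EW μ N (fun _ => x) = x
  | 0 => rfl
  | N + 1 => by
    rw [EW]
    simp only [EW_const hμ x N]
    rw [← Finset.sum_mul, hμ, one_mul]

theorem EW_lin (x y : ℝ) : ∀ (N : ℕ) (g h : List (Equiv.Perm (Fin d)) → ℝ),
    EW μ N (fun w => x * g w + y * h w) = x * EW μ N g + y * EW μ N h
  | 0, g, h => rfl
  | N + 1, g, h => by
    simp only [EW]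
    rw [Finset.mul_sum, Finset.mul_sum, ← Finset.sum_add_distrib]
    refine Finset.sum_congr rfl fun σ _ => ?_
    rw [EW_lin x y N]
    ring

theorem EW_append : ∀ (M N : ℕ) (g : List (Equiv.Perm (Fin d)) → ℝ),
    EW μ (M + N) g = EW μ M (fun v => EW μ N (fun w => g (v ++ w)))
  | 0, N, g => by
    rw [Nat.zero_add]
    rfl
  | M + 1, N, g => by
    rw [show M + 1 + N = (M + N) + 1 by omega]
    simp only [EW]
    refine Finset.sum_congr rfl fun σ _ => ?_
    rw [EW_append M N]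
    rfl

theorem nf2_nonneg (B : Fin d → Fin d → ℝ) : 0 ≤ nf2 B :=
  Finset.sum_nonneg fun _ _ => Finset.sum_nonneg fun _ _ => sq_nonneg _

theorem nf2_zero : nf2 (fun _ _ => 0 : Fin d → Fin d → ℝ) = 0 := by
  simp [nf2]

theorem nf2_tri (A z B : Fin d → Fin d → ℝ) :
    nf2 (fun i j => z i j - B i j) ≤
      2 * nf2 (fun i j => A i j - z i j) + 2 * nf2 (fun i j => A i j - B i j) := by
  unfold nf2
  rw [Finset.mul_sum, Finset.mul_sum, ← Finset.sum_add_distrib]
  refine Finset.sum_le_sum fun i _ => ?_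
  rw [Finset.mul_sum, Finset.mul_sum, ← Finset.sum_add_distrib]
  refine Finset.sum_le_sum fun j _ => ?_
  nlinarith [sq_nonneg (A i j - z i j + (A i j - B i j))]

/-- `PW w F ≤ x * PW w G` if `F ≤ x * G` on balanced configurations -/
theorem PW_le (h : S_PWB) {n k : ℕ} (hk : k ≤ n) (w : List (Equiv.Perm (Fin d)))
    (F G : Mt d → ℝ) (x : ℝ) (hFG : ∀ c : Cf d n, Bal c → F (cn c) ≤ x * G (cn c)) (c : Cf d n)
    (hc : Bal c) : PW n k w F (cn c) ≤ x * PW n k w G (cn c) := by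
  have h1 := h.1 d n k hk w F (fun B => x * G B + 0 * G B)
    (fun c hc => by
      have := hFG c hc
      linarith) c hc
  rw [h.2.1 d n k w G G x 0 (cn c), zero_mul, add_zero] at h1
  exact h1

end Pool.Agent.L7h78.UC
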